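import Mathlib

set_option autoImplicit false

/-!
MP_4e0dfc_co (helper78): permanents of repeated rows and coefficients of products of linear forms.
-/

namespace Pool.Agent.W5h78.AT

open Finset Polynomial

universe u

variable {F : Type u} [Field F]

/-- product of the linear forms `a + b X` -/
noncomputable def lp {κ : Type} (v : κ → Fin 2 → F) (s : Finset κ) : F[X] :=
  ∏ c ∈ s, (C (v c 0) + C (v c 1) * X)

theorem coeff_lp {κ : Type} [DecidableEq κ] (v : κ → Fin 2 → F) (s : Finset κ) (m : ℕ) :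
    (lp v s).coeff m =
      ∑ t ∈ s.powerset with (s \ t).card = m, (∏ c ∈ t, v c 0) * ∏ c ∈ s \ t, v c 1 := by
  rw [lp, Finset.prod_add, Polynomial.finsetSum_coeff, Finset.sum_filter]
  refine Finset.sum_congr rfl fun t _ => ?_
  have h1 : (∏ c ∈ t, (C (v c 0) : F[X])) * ∏ c ∈ s \ t, (C (v c 1) * X) =
      C ((∏ c ∈ t, v c 0) * ∏ c ∈ s \ t, v c 1) * X ^ (s \ t).card := by
    rw [Finset.prod_mul_distrib, Finset.prod_const, map_mul, map_prod, map_prod, mul_assoc]
  rw [h1, coeff_C_mul, coeff_X_pow]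
  by_cases h : (s \ t).card = m
  · rw [if_pos h, if_pos h.symm, mul_one]
  · rw [if_neg h, if_neg (fun h2 => h h2.symm), mul_zero]

theorem card_snd (m : ℕ) (i : Fin 2) :
    Fintype.card {r : Fin m × Fin 2 // r.2 = i} = m := by
  have e : {r : Fin m × Fin 2 // r.2 = i} ≃ Fin m :=
    { toFun := fun r => r.1.1
      invFun := fun k => ⟨(k, i), rfl⟩
      left_inv := by rintro ⟨⟨a, b⟩, h⟩; simp only at h; subst h; rfl
      right_inv := fun k => rfl }
  rw [Fintype.card_congr e, Fintype.card_fin]

/-- the set of columns sent to a copy of the first row -/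
def TT (m : ℕ) (σ : Equiv.Perm (Fin m × Fin 2)) : Finset (Fin m × Fin 2) :=
  Finset.univ.filter (fun c => (σ c).2 = 0)

theorem mem_TT {m : ℕ} {σ : Equiv.Perm (Fin m × Fin 2)} {c : Fin m × Fin 2} :
    c ∈ TT m σ ↔ (σ c).2 = 0 := by simp [TT]

theorem card_TT_compl (m : ℕ) (σ : Equiv.Perm (Fin m × Fin 2)) :
    (Finset.univ \ TT m σ).card = m := by
  have h1 : (Finset.univ \ TT m σ) = Finset.univ.filter (fun c => (σ c).2 = 1) := by
    ext c
    simp only [TT, mem_sdiff, mem_univ, true_and, mem_filter]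
    constructor
    · intro h; omega
    · intro h h2; rw [h] at h2; exact absurd h2 (by decide)
  rw [h1]
  have h2 := card_snd m 1
  rw [Fintype.card_subtype] at h2
  refine Eq.trans ?_ h2
  refine Finset.card_bij (fun c _ => σ c) ?_ ?_ ?_
  · intro c hc; simpa using hc
  · intro a _ b _ h; exact σ.injective h
  · intro b hb
    refine ⟨σ.symm b, ?_, by simp⟩
    simpa using hb

theorem exists_TT (m : ℕ) (t : Finset (Fin m × Fin 2)) (ht : (Finset.univ \ t).card = m) :
    ∃ σ, TT m σ = t := by
  classical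
  have hc : t.card = m := by
    have := Finset.card_sdiff_add_card_eq_card (Finset.subset_univ t)
    rw [ht, Finset.card_univ, Fintype.card_prod, Fintype.card_fin, Fintype.card_fin] at this
    omega
  have e0 : {c // c ∈ t} ≃ {r : Fin m × Fin 2 // r.2 = 0} :=
    Fintype.equivOfCardEq (by rw [card_snd, Fintype.card_coe, hc])
  have h1 : Fintype.card {c // ¬ c ∈ t} = Fintype.card {r : Fin m × Fin 2 // ¬ r.2 = 0} := by
    rw [Fintype.card_subtype_compl, Fintype.card_subtype_compl, card_snd, Fintype.card_coe, hc]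
  have e1 : {c // ¬ c ∈ t} ≃ {r : Fin m × Fin 2 // ¬ r.2 = 0} := Fintype.equivOfCardEq h1
  refine ⟨Equiv.subtypeCongr e0 e1, ?_⟩
  ext c
  simp only [TT, mem_filter, mem_univ, true_and]
  by_cases h : c ∈ t
  · have : (Equiv.subtypeCongr e0 e1) c = e0 ⟨c, h⟩ := by
      simp [Equiv.subtypeCongr, h]
    rw [this]
    exact iff_of_true (e0 ⟨c, h⟩).2 h
  · have : (Equiv.subtypeCongr e0 e1) c = e1 ⟨c, h⟩ := by
      simp [Equiv.subtypeCongr, h]
    rw [this]
    exact iff_of_false (e1 ⟨c, h⟩).2 h

theorem card_fiber (m : ℕ) (t : Finset (Fin m × Fin 2)) :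
    (Finset.univ.filter (fun σ => TT m σ = t)).card =
      if (Finset.univ \ t).card = m then (m.factorial) ^ 2 else 0 := by
  classical
  split_ifs with h
  · obtain ⟨σ₀, h0⟩ := exists_TT m t h
    have h1 := DomMulAct.stabilizer_card (fun r : Fin m × Fin 2 => r.2)
    rw [Fin.prod_univ_two, card_snd, card_snd, Fintype.card_subtype] at h1
    rw [sq, ← h1]
    refine Finset.card_bij (fun σ _ => σ₀.symm.trans σ) ?_ ?_ ?_
    · intro σ hσ
      simp only [mem_filter, mem_univ, true_and] at hσ ⊢
      funext r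
      simp only [Function.comp_apply, Equiv.trans_apply]
      have h2 : (σ (σ₀.symm r)).2 = 0 ↔ r.2 = 0 := by
        have h3 : σ₀.symm r ∈ TT m σ ↔ σ₀.symm r ∈ TT m σ₀ := by rw [hσ, h0]
        simpa [TT] using h3
      by_cases h4 : r.2 = 0
      · rw [h4]; exact h2.2 h4
      · have h5 : ¬ (σ (σ₀.symm r)).2 = 0 := fun h6 => h4 (h2.1 h6)
        omega
    · intro σ _ τ _ h2
      have := congrArg (fun e => σ₀.trans e) h2
      simpa [← Equiv.trans_assoc] using this
    · intro g hg
      simp only [mem_filter, mem_univ, true_and] at hg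
      refine ⟨σ₀.trans g, ?_, by simp [← Equiv.trans_assoc]⟩
      simp only [mem_filter, mem_univ, true_and]
      rw [← h0]
      ext c
      rw [mem_TT, mem_TT]
      have := congrFun hg (σ₀ c)
      simp only [Function.comp_apply] at this
      rw [Equiv.trans_apply, this]
  · rw [Finset.card_eq_zero, Finset.filter_eq_empty_iff]
    intro σ _ h2
    apply h
    rw [← h2]
    exact card_TT_compl m σ

theorem perm_eq (m : ℕ) (v : Fin m × Fin 2 → Fin 2 → F) :
    Matrix.permanent (Matrix.of fun r c : Fin m × Fin 2 => v c r.2) =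
      ((m.factorial : F)) ^ 2 * (lp v Finset.univ).coeff m := by
  classical
  have h1 : ∀ σ : Equiv.Perm (Fin m × Fin 2),
      ∏ c, (Matrix.of fun r c : Fin m × Fin 2 => v c r.2) (σ c) c =
        (∏ c ∈ TT m σ, v c 0) * ∏ c ∈ Finset.univ \ TT m σ, v c 1 := by
    intro σ
    simp only [Matrix.of_apply]
    rw [← Finset.prod_sdiff (Finset.subset_univ (TT m σ)), mul_comm]
    congr 1
    · refine Finset.prod_congr rfl fun c hc => ?_
      simp only [TT, mem_filter, mem_univ, true_and] at hc
      rw [hc]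
    · refine Finset.prod_congr rfl fun c hc => ?_
      simp only [TT, mem_sdiff, mem_filter, mem_univ, true_and] at hc
      have : (σ c).2 = 1 := by omega
      rw [this]
  rw [Matrix.permanent, Finset.sum_congr rfl fun σ _ => h1 σ]
  rw [← Finset.sum_fiberwise (s := Finset.univ) (g := TT m)]
  rw [coeff_lp, Finset.mul_sum, Finset.powerset_univ, Finset.sum_filter]
  refine Finset.sum_congr rfl fun t _ => ?_
  have h2 : ∑ σ with TT m σ = t, ((∏ c ∈ TT m σ, v c 0) * ∏ c ∈ Finset.univ \ TT m σ, v c 1) =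
      (Finset.univ.filter (fun σ => TT m σ = t)).card • ((∏ c ∈ t, v c 0) * ∏ c ∈ Finset.univ \ t, v c 1) := by
    rw [← Finset.sum_const]
    refine Finset.sum_congr rfl fun σ hσ => ?_
    simp only [mem_filter, mem_univ, true_and] at hσ
    rw [hσ]
  rw [h2, card_fiber]
  split_ifs with h
  · rw [nsmul_eq_mul]; push_cast; ring
  · simp

end Pool.Agent.W5h78.AT
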