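import Mathlib

set_option autoImplicit false

/-!
MP_4e0dfc_co (helper78): the Wronskian argument.
-/

namespace Pool.Agent.W5h78.AT

open Finset Polynomial

universe u

variable {K : Type u} [Field K]

theorem wron_zero (p : ℕ) [Fact p.Prime] [CharP K p] (e : ℕ) (hep : e < p) (A B : K[X])
    (hA : A.Monic) (hAe : A.natDegree = e) (hB : B.natDegree ≤ e)
    (hW : A * derivative B - derivative A * B = 0) : ∃ c : K, B = C c * A := by
  refine ⟨B.coeff e, ?_⟩
  by_contra hne
  set B1 := B - C (B.coeff e) * A with hB1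
  have hB1ne : B1 ≠ 0 := sub_ne_zero.2 hne
  have hW1 : A * derivative B1 = derivative A * B1 := by
    rw [hB1, derivative_sub, derivative_mul, derivative_C, zero_mul, zero_add]
    linear_combination hW
  have hAc : A.coeff e = 1 := by rw [← hAe]; exact hA
  have hd1 : B1.natDegree ≤ e := by
    refine (natDegree_sub_le _ _).trans (max_le hB ?_)
    exact (natDegree_C_mul_le _ _).trans hAe.le
  have hc1 : B1.coeff e = 0 := by
    rw [hB1, coeff_sub, coeff_C_mul, hAc, mul_one, sub_self]
  have hf : B1.natDegree < e := by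
    rcases lt_or_eq_of_le hd1 with h | h
    · exact h
    · exfalso
      apply hB1ne
      rw [← leadingCoeff_eq_zero, leadingCoeff, h, hc1]
  set f := B1.natDegree with hfdef
  have he1 : 1 ≤ e := by omega
  have hA' : (derivative A).coeff (e - 1) = (e : K) := by
    rw [coeff_derivative]
    have : e - 1 + 1 = e := by omega
    rw [this, hAc, one_mul]
    have h2 : ((e - 1 : ℕ) : K) + 1 = ((e - 1 + 1 : ℕ) : K) := by push_cast; ring
    rw [h2, this]
  have hbne : B1.coeff f ≠ 0 := by
    rw [hfdef]
    exact leadingCoeff_ne_zero.2 hB1ne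
  have hdA : (derivative A).natDegree ≤ e - 1 := by
    have := natDegree_derivative_le A
    omega
  have hdB : (derivative B1).natDegree ≤ f - 1 := by
    have := natDegree_derivative_le B1
    omega
  have hR : (derivative A * B1).coeff (e - 1 + f) = (e : K) * B1.coeff f := by
    rw [coeff_mul_add_eq_of_natDegree_le hdA le_rfl, hA']
  have hcast : ((e : K) - (f : K)) ≠ 0 := by
    intro h0
    have h1 : ((e - f : ℕ) : K) = 0 := by rw [Nat.cast_sub hf.le]; exact h0
    rw [CharP.cast_eq_zero_iff K p] at h1
    have := Nat.le_of_dvd (by omega) h1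
    omega
  rcases Nat.eq_zero_or_pos f with h0 | h0
  · have hB1c : derivative B1 = 0 := by
      rw [eq_C_of_natDegree_eq_zero (p := B1) (by omega), derivative_C]
    rw [hB1c, mul_zero] at hW1
    rw [← hW1, coeff_zero] at hR
    rw [h0] at hcast hbne
    simp only [Nat.cast_zero, sub_zero] at hcast
    rw [h0] at hR
    exact (mul_ne_zero hcast hbne) hR.symm
  · have hL : (A * derivative B1).coeff (e + (f - 1)) = (f : K) * B1.coeff f := by
      rw [coeff_mul_add_eq_of_natDegree_le hAe.le hdB, hAc, one_mul, coeff_derivative]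
      have h2 : f - 1 + 1 = f := by omega
      rw [h2]
      have h3 : ((f - 1 : ℕ) : K) + 1 = ((f - 1 + 1 : ℕ) : K) := by push_cast; ring
      rw [h3, h2, mul_comm]
    have h4 : e + (f - 1) = e - 1 + f := by omega
    rw [hW1, h4, hR] at hL
    have : ((e : K) - (f : K)) * B1.coeff f = 0 := by rw [sub_mul, hL, sub_self]
    exact (mul_ne_zero hcast hbne) this

theorem key [IsAlgClosed K] [DecidableEq K] (p : ℕ) [hp : Fact p.Prime] [CharP K p] {ι : Type} [Fintype ι]
    [DecidableEq ι] (t : ι → K) (hc : Fintype.card ι = 2 * p - 1)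
    (hm : ∀ a, (Finset.univ.filter (fun c => t c = a)).card ≤ p) :
    ∃ x, (∏ c ∈ Finset.univ.erase x, (X - C (t c))).coeff (p - 1) ≠ 0 := by
  classical
  by_contra hcon
  push Not at hcon
  have hp2 : 2 ≤ p := hp.out.two_le
  set V : Finset K := Finset.univ.image t with hV
  set μ : K → ℕ := fun a => (Finset.univ.filter (fun c => t c = a)).card with hμ
  have hμ1 : ∀ a ∈ V, 1 ≤ μ a := by
    intro a ha
    rw [hV, mem_image] at ha
    obtain ⟨c, _, hc'⟩ := ha
    exact Finset.card_pos.2 ⟨c, by simp [hc']⟩
  have hsum : ∑ a ∈ V, μ a = 2 * p - 1 := by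
    rw [← hc, ← Finset.card_univ]
    exact (Finset.card_eq_sum_card_image t Finset.univ).symm
  -- the two products
  set D : K[X] := ∏ a ∈ V, (X - C a) ^ (μ a - 1) with hD
  have hDm : D.Monic := monic_prod_of_monic _ _ fun a _ => (monic_X_sub_C a).pow _
  have hDd : D.natDegree = ∑ a ∈ V, (μ a - 1) := by
    rw [hD, natDegree_prod_of_monic _ _ fun a _ => (monic_X_sub_C a).pow _]
    refine Finset.sum_congr rfl fun a _ => ?_
    rw [natDegree_pow, natDegree_X_sub_C, mul_one]
  have hdeg : D.natDegree + V.card = 2 * p - 1 := by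
    rw [hDd, Finset.card_eq_sum_ones, ← Finset.sum_add_distrib, ← hsum]
    refine Finset.sum_congr rfl fun a ha => ?_
    have := hμ1 a ha
    omega
  have hP : ∏ c, (X - C (t c)) = D * ∏ a ∈ V, (X - C a) := by
    rw [hD, ← Finset.prod_mul_distrib]
    rw [← Finset.prod_fiberwise_of_maps_to (s := Finset.univ) (t := V) (g := t)
      (fun c _ => Finset.mem_image_of_mem _ (Finset.mem_univ c))]
    refine Finset.prod_congr rfl fun a ha => ?_
    have h1 : ∏ c with t c = a, (X - C (t c)) = (X - C a) ^ μ a := by
      rw [hμ, ← Finset.prod_const]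
      refine Finset.prod_congr rfl fun c hc' => ?_
      rw [(Finset.mem_filter.1 hc').2]
    rw [h1, ← pow_succ]
    congr 1
    have := hμ1 a ha
    omega
  have hx : ∀ x, ∏ c ∈ Finset.univ.erase x, (X - C (t c)) =
      D * ∏ b ∈ V.erase (t x), (X - C b) := by
    intro x
    have h1 : (X - C (t x)) ≠ 0 := X_sub_C_ne_zero _
    apply mul_left_cancel₀ h1
    rw [Finset.mul_prod_erase Finset.univ (fun c => X - C (t c)) (Finset.mem_univ x), hP, mul_left_comm,
      Finset.mul_prod_erase V (fun b => X - C b) (Finset.mem_image_of_mem _ (Finset.mem_univ x))]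
  -- the linear functional vanishes on D * (degree < s)
  have hN : ∀ N : K[X], N.degree < V.card → (D * N).coeff (p - 1) = 0 := by
    intro N hN
    have h1 := Lagrange.eq_interpolate (s := V) (v := id) (f := N) (Set.injOn_id _) hN
    rw [h1, Lagrange.interpolate_apply, Finset.mul_sum, finsetSum_coeff]
    refine Finset.sum_eq_zero fun a ha => ?_
    rw [hV, mem_image] at ha
    obtain ⟨x, _, rfl⟩ := ha
    have h2 : Lagrange.basis V id (t x) =
        C (∏ b ∈ V.erase (t x), (t x - b)⁻¹) * ∏ b ∈ V.erase (t x), (X - C b) := by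
      rw [Lagrange.basis, map_prod, ← Finset.prod_mul_distrib]
      rfl
    have h3 : D * (C (eval (id (t x)) N) * (C (∏ b ∈ V.erase (t x), (t x - b)⁻¹) *
        ∏ b ∈ V.erase (t x), (X - C b))) = C (eval (id (t x)) N * ∏ b ∈ V.erase (t x), (t x - b)⁻¹) *
        (D * ∏ b ∈ V.erase (t x), (X - C b)) := by
      rw [C_mul]; ring
    rw [h2, h3, coeff_C_mul, ← hx, hcon x, mul_zero]
  have hcoef : ∀ j, j ≤ p - 1 → p - 1 < V.card + j → D.coeff j = 0 := by
    intro j hj hj2
    have h1 := hN (X ^ (p - 1 - j)) (by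
      rw [degree_X_pow]
      exact_mod_cast (by omega : p - 1 - j < V.card))
    have h2 : (D * X ^ (p - 1 - j)).coeff (j + (p - 1 - j)) = D.coeff j := coeff_mul_X_pow _ _ _
    have h3 : j + (p - 1 - j) = p - 1 := by omega
    rw [h3, h1] at h2
    exact h2.symm
  rcases Nat.lt_or_ge (p - 1) V.card with hs | hs
  · -- D has degree at most p - 1 and vanishing coefficients
    have h1 : D.natDegree ≤ p - 1 := by omega
    have h2 := hcoef D.natDegree h1 (by omega)
    have h3 : D.coeff D.natDegree = 1 := hDm
    rw [h3] at h2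
    exact one_ne_zero h2
  set e := p - 1 - V.card with he
  set A := D /ₘ (X ^ p) with hA
  set B := D %ₘ (X ^ p) with hB
  have hXp : (X ^ p : K[X]).Monic := monic_X_pow p
  have hDAB : D = X ^ p * A + B := by
    rw [hA, hB, add_comm]
    exact (modByMonic_add_div D (X ^ p)).symm
  have hAd : A.natDegree = e := by
    rw [hA, natDegree_divByMonic _ hXp, natDegree_X_pow]
    omega
  have hBp : B.degree < p := by
    have := degree_modByMonic_lt D hXp
    rwa [degree_X_pow] at this
  have hBc : ∀ j, j < p → B.coeff j = D.coeff j := by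
    intro j hj
    rw [hDAB, coeff_add, coeff_X_pow_mul', if_neg (by omega), zero_add]
  have hBd : B.natDegree ≤ e := by
    rw [natDegree_le_iff_coeff_eq_zero]
    intro j hj
    rcases Nat.lt_or_ge j p with h1 | h1
    · rw [hBc j h1]
      exact hcoef j (by omega) (by omega)
    · exact coeff_eq_zero_of_degree_lt (hBp.trans_le (by exact_mod_cast h1))
  have hAm : A.Monic := by
    have h1 : D.coeff (e + p) = A.coeff e := by
      rw [hDAB, coeff_add, coeff_X_pow_mul, coeff_eq_zero_of_degree_lt (n := e + p)
        (hBp.trans_le (by exact_mod_cast (by omega : p ≤ e + p))), add_zero]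
    have h2 : e + p = D.natDegree := by omega
    have h3 : D.coeff D.natDegree = 1 := hDm
    rw [h2, h3] at h1
    rw [Monic, leadingCoeff, hAd, ← h1]
  set W := A * derivative B - derivative A * B with hWdef
  have hdiv : ∀ a ∈ V, (X - C a) ^ (μ a - 1 - 1) ∣ W := by
    intro a ha
    have h1 : (X - C a) ^ p = X ^ p - C (a ^ p) := by
      rw [sub_pow_char, C_pow]
    have h2 : B + C (a ^ p) * A = D - (X - C a) ^ p * A := by
      rw [h1, hDAB]; ring
    have h3 : (X - C a) ^ (μ a - 1) ∣ B + C (a ^ p) * A := by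
      rw [h2]
      refine dvd_sub ?_ ?_
      · exact Finset.dvd_prod_of_mem (fun a => (X - C a) ^ (μ a - 1)) ha
      · refine Dvd.dvd.mul_right (pow_dvd_pow _ ?_) _
        have := hm a
        have h5 : μ a ≤ p := this
        omega
    have h4 : W = A * derivative (B + C (a ^ p) * A) - derivative A * (B + C (a ^ p) * A) := by
      rw [hWdef, derivative_add, derivative_mul, derivative_C]
      ring
    rw [h4]
    refine dvd_sub ?_ ?_
    · exact Dvd.dvd.mul_left (pow_sub_one_dvd_derivative_of_pow_dvd h3) _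
    · exact Dvd.dvd.mul_left ((pow_dvd_pow _ (by omega)).trans h3) _
  have hprod : ∏ a ∈ V, (X - C a) ^ (μ a - 1 - 1) ∣ W := by
    refine Finset.prod_dvd_of_coprime ?_ hdiv
    intro a _ b _ hab
    exact (pairwise_coprime_X_sub_C Function.injective_id hab).pow
  have hW0 : W = 0 := by
    by_contra hWne
    have h1 := natDegree_le_of_dvd hprod hWne
    rw [natDegree_prod_of_monic _ _ fun a _ => (monic_X_sub_C a).pow _] at h1
    simp only [natDegree_pow, natDegree_X_sub_C, mul_one] at h1
    have h2 : 2 * p - 1 ≤ ∑ a ∈ V, (μ a - 1 - 1) + 2 * V.card := by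
      rw [← hsum, Finset.card_eq_sum_ones, Finset.mul_sum, ← Finset.sum_add_distrib]
      refine Finset.sum_le_sum fun a _ => ?_
      omega
    have h3 : W.natDegree ≤ e + (e - 1) := by
      rw [hWdef]
      refine (natDegree_sub_le _ _).trans (max_le ?_ ?_)
      · refine natDegree_mul_le.trans ?_
        have := natDegree_derivative_le B
        omega
      · refine natDegree_mul_le.trans ?_
        have := natDegree_derivative_le A
        omega
    omega
  obtain ⟨c, hcB⟩ := wron_zero p e (by omega) A B hAm hAd hBd hW0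
  obtain ⟨r, hr⟩ := IsAlgClosed.exists_pow_nat_eq (-c) hp.out.pos
  have hDr : (X - C r) ^ p ∣ D := by
    have h1 : (X - C r) ^ p = X ^ p - C (r ^ p) := by
      rw [sub_pow_char, C_pow]
    refine ⟨A, ?_⟩
    rw [h1, hr, hDAB, hcB, C_neg]
    ring
  -- multiplicities
  have hroots : (∏ c, (X - C (t c))).roots = Finset.univ.val.map t := by
    have := roots_multiset_prod_X_sub_C (Finset.univ.val.map t)
    rwa [Multiset.map_map] at this
  have hcount : ∀ a, (Finset.univ.val.map t).count a = μ a := by
    intro a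
    rw [Multiset.count_map, hμ]
    simp only [Finset.card, Finset.filter]
    congr 1
    refine Multiset.filter_congr fun x _ => ?_
    exact eq_comm
  have hPne : ∏ c, (X - C (t c)) ≠ 0 := (monic_prod_of_monic _ _ fun c _ => monic_X_sub_C _).ne_zero
  have hmult : ∀ n, (X - C r) ^ n ∣ ∏ c, (X - C (t c)) → n ≤ μ r := by
    intro n hn
    rw [← hcount r, ← hroots, count_roots]
    exact (le_rootMultiplicity_iff hPne).2 hn
  have h5 : p ≤ μ r := hmult p (by rw [hP]; exact Dvd.dvd.mul_right hDr _)
  have hrV : r ∈ V := by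
    have h6 : 0 < μ r := by omega
    rw [hμ] at h6
    obtain ⟨c', hc'⟩ := Finset.card_pos.1 h6
    rw [hV, mem_image]
    exact ⟨c', mem_univ _, (mem_filter.1 hc').2⟩
  have h7 : p + 1 ≤ μ r := by
    apply hmult
    rw [hP, pow_succ]
    refine mul_dvd_mul hDr ?_
    exact Finset.dvd_prod_of_mem (fun a => X - C a) hrV
  have h8 : μ r ≤ p := hm r
  omega

end Pool.Agent.W5h78.AT
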