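import Mathlib
import Pool.Agent.W5h78.AT.Perm2
import Pool.Agent.W5h78.AT.Wron

set_option autoImplicit false

/-!
MP_4e0dfc_co (helper78): shift invariance and the criterion in the plane.
-/

namespace Pool.Agent.W5h78.AT

open Finset Polynomial

universe u

variable {K : Type u} [Field K]

/-- the middle coefficient of a polynomial of degree at most `2p-2` is invariant under shifts -/
theorem coeff_shift (p : ℕ) [hp : Fact p.Prime] [CharP K p] (P : K[X]) (hP : P.natDegree ≤ 2 * (p - 1))
    (l : K) : (P.comp (X + C l)).coeff (p - 1) = P.coeff (p - 1) := by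
  have hp2 : 2 ≤ p := hp.out.two_le
  have h0 : P.comp (X + C l) = taylor l P := by rw [taylor_apply]
  rw [h0, taylor_coeff]
  have h1 : (hasseDeriv (p - 1) P) = C (P.coeff (p - 1)) := by
    ext n
    rw [hasseDeriv_coeff, coeff_C]
    split_ifs with hn
    · subst hn
      rw [zero_add, Nat.choose_self, Nat.cast_one, one_mul]
    · rcases Nat.lt_or_ge (p - 1) n with h2 | h2
      · rw [coeff_eq_zero_of_natDegree_lt (by omega), mul_zero]
      · have h3 : p ∣ (n + (p - 1)).choose n :=
          hp.out.dvd_choose_add (by omega) (by omega) (by omega)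
        rw [Nat.choose_symm_add] at h3
        rw [(CharP.cast_eq_zero_iff K p _).2 h3, zero_mul]
  rw [h1, eval_C]

theorem natDegree_lp_le {κ : Type} (v : κ → Fin 2 → K) (s : Finset κ) :
    (lp v s).natDegree ≤ s.card := by
  rw [lp, Finset.card_eq_sum_ones]
  refine (natDegree_prod_le _ _).trans (Finset.sum_le_sum fun c _ => ?_)
  refine (natDegree_add_le _ _).trans (max_le ?_ ?_)
  · rw [natDegree_C]; exact Nat.zero_le _
  · exact (natDegree_C_mul_le _ _).trans natDegree_X_le

theorem coeff_swap {κ : Type} [DecidableEq κ] (v : κ → Fin 2 → K) (s : Finset κ) (m : ℕ)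
    (hs : s.card = 2 * m) :
    (lp (fun c => ![v c 1, v c 0]) s).coeff m = (lp v s).coeff m := by
  rw [coeff_lp, coeff_lp]
  refine Finset.sum_bij' (i := fun t _ => s \ t) (j := fun t _ => s \ t) ?_ ?_ ?_ ?_ ?_
  · intro t ht
    simp only [mem_filter, mem_powerset] at ht ⊢
    refine ⟨sdiff_subset, ?_⟩
    rw [Finset.sdiff_sdiff_eq_self ht.1]
    have := card_sdiff_add_card_eq_card ht.1
    omega
  · intro t ht
    simp only [mem_filter, mem_powerset] at ht ⊢
    refine ⟨sdiff_subset, ?_⟩
    rw [Finset.sdiff_sdiff_eq_self ht.1]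
    have := card_sdiff_add_card_eq_card ht.1
    omega
  · intro t ht
    simp only [mem_filter, mem_powerset] at ht
    exact Finset.sdiff_sdiff_eq_self ht.1
  · intro t ht
    simp only [mem_filter, mem_powerset] at ht
    exact Finset.sdiff_sdiff_eq_self ht.1
  · intro t ht
    simp only [mem_filter, mem_powerset] at ht
    rw [Finset.sdiff_sdiff_eq_self ht.1, mul_comm]
    simp

theorem coeff_transform (p : ℕ) [hp : Fact p.Prime] [CharP K p] {κ : Type} [DecidableEq κ]
    (v : κ → Fin 2 → K) (s : Finset κ) (hs : s.card = 2 * (p - 1)) (l : K) :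
    (lp (fun c => ![v c 0, v c 1 + l * v c 0]) s).coeff (p - 1) = (lp v s).coeff (p - 1) := by
  rw [← coeff_swap v s (p - 1) hs, ← coeff_swap _ s (p - 1) hs]
  rw [← coeff_shift p (lp (fun c => ![v c 1, v c 0]) s) ((natDegree_lp_le _ _).trans hs.le) l]
  congr 1
  simp only [lp, Polynomial.prod_comp]
  refine Finset.prod_congr rfl fun c _ => ?_
  simp only [Matrix.cons_val_zero, Matrix.cons_val_one, add_comp, mul_comp, C_comp, X_comp, C_add, C_mul]
  ring

theorem key2 [IsAlgClosed K] [DecidableEq K] (p : ℕ) [hp : Fact p.Prime] [CharP K p] {ι : Type}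
    [Fintype ι] [DecidableEq ι] (v : ι → Fin 2 → K) (hv : ∀ c, v c 0 ≠ 0 ∨ v c 1 ≠ 0)
    (hc : Fintype.card ι = 2 * p - 1)
    (hline : ∀ α β : K, (α ≠ 0 ∨ β ≠ 0) →
      (Finset.univ.filter (fun c => α * v c 0 + β * v c 1 = 0)).card ≤ p) :
    ∃ x, (lp v (Finset.univ.erase x)).coeff (p - 1) ≠ 0 := by
  classical
  have hp2 : 2 ≤ p := hp.out.two_le
  have hinf : Infinite K := IsAlgClosed.instInfinite
  obtain ⟨l, hl⟩ := Infinite.exists_notMem_finset (Finset.univ.image (fun c => - v c 1 / v c 0))
  have hb : ∀ c, v c 1 + l * v c 0 ≠ 0 := by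
    intro c h0
    by_cases h1 : v c 0 = 0
    · rw [h1, mul_zero, add_zero] at h0
      rcases hv c with h2 | h2
      · exact h2 h1
      · exact h2 h0
    · apply hl
      rw [mem_image]
      refine ⟨c, mem_univ _, ?_⟩
      rw [div_eq_iff h1]
      linear_combination -h0
  set t : ι → K := fun c => - v c 0 / (v c 1 + l * v c 0) with ht
  obtain ⟨x, hx⟩ := key p t hc (by
    intro a
    refine le_trans (Finset.card_le_card ?_) (hline (1 + a * l) a ?_)
    · intro c hc'
      simp only [mem_filter, mem_univ, true_and, ht] at hc' ⊢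
      rw [div_eq_iff (hb c)] at hc'
      linear_combination -hc'
    · by_cases ha : a = 0
      · left; rw [ha]; simp
      · right; exact ha)
  refine ⟨x, ?_⟩
  have hcard : (Finset.univ.erase x).card = 2 * (p - 1) := by
    rw [card_erase_of_mem (mem_univ x), card_univ, hc]
    omega
  rw [← coeff_transform p v (Finset.univ.erase x) hcard l]
  have h1 : lp (fun c => ![v c 0, v c 1 + l * v c 0]) (Finset.univ.erase x) =
      C (∏ c ∈ Finset.univ.erase x, (v c 1 + l * v c 0)) * ∏ c ∈ Finset.univ.erase x, (X - C (t c)) := by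
    rw [lp, map_prod, ← Finset.prod_mul_distrib]
    refine Finset.prod_congr rfl fun c _ => ?_
    simp only [Matrix.cons_val_zero, Matrix.cons_val_one]
    have h2 : C (v c 0) = - (C (v c 1 + l * v c 0) * C (t c)) := by
      have h3 : (v c 1 + l * v c 0) * t c = - v c 0 := by
        rw [ht, mul_comm]
        exact div_mul_cancel₀ _ (hb c)
      rw [← C_mul, ← C_neg, h3, neg_neg]
    rw [h2]
    ring
  rw [h1, coeff_C_mul]
  exact mul_ne_zero (Finset.prod_ne_zero_iff.2 fun c _ => hb c) hx

end Pool.Agent.W5h78.AT
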