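import Mathlib
import Pool.Agent.W5h78.AT.Plane

set_option autoImplicit false

/-!
MP_4e0dfc_co (helper78): the criterion for Alon-Tarsi bases in the plane.
-/

namespace Pool.Agent.W5h78.AT

open Finset Polynomial

universe u

variable {F : Type u} [Field F]

theorem map_lp {K : Type u} [Field K] (i : F →+* K) {κ : Type} (v : κ → Fin 2 → F) (s : Finset κ) :
    (lp v s).map i = lp (fun c k => i (v c k)) s := by
  simp only [lp, Polynomial.map_prod, Polynomial.map_add, Polynomial.map_mul, map_C, map_X]

theorem exists_good [DecidableEq F] (p : ℕ) [hp : Fact p.Prime] [CharP F p] {ι : Type} [Fintype ι] [DecidableEq ι]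
    (v : ι → Fin 2 → F) (hv : ∀ c, v c ≠ 0) (hc : Fintype.card ι = 2 * p - 1)
    (hpar : ∀ c₀, (Finset.univ.filter (fun c => v c₀ 0 * v c 1 = v c₀ 1 * v c 0)).card ≤ p) :
    ∃ x, (lp v (Finset.univ.erase x)).coeff (p - 1) ≠ 0 := by
  classical
  let K := AlgebraicClosure F
  let i := algebraMap F K
  have hi : Function.Injective i := i.injective
  have : CharP K p := charP_of_injective_algebraMap hi p
  have hv' : ∀ c, v c 0 ≠ 0 ∨ v c 1 ≠ 0 := by
    intro c
    by_contra h
    push Not at h
    apply hv c
    funext k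
    fin_cases k
    · exact h.1
    · exact h.2
  obtain ⟨x, hx⟩ := key2 (K := K) p (fun c k => i (v c k)) (fun c => by
    rcases hv' c with h | h
    · left; exact (map_ne_zero i).2 h
    · right; exact (map_ne_zero i).2 h) hc (by
    intro α β hab
    by_cases hne : (Finset.univ.filter (fun c => α * i (v c 0) + β * i (v c 1) = 0)).Nonempty
    · obtain ⟨c₀, hc₀⟩ := hne
      refine le_trans (Finset.card_le_card ?_) (hpar c₀)
      intro c hc'
      simp only [mem_filter, mem_univ, true_and] at hc₀ hc' ⊢
      apply hi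
      rw [map_mul, map_mul]
      rcases hab with h | h
      · apply mul_left_cancel₀ h
        linear_combination (i (v c 1)) * hc₀ - (i (v c₀ 1)) * hc'
      · apply mul_left_cancel₀ h
        linear_combination (i (v c₀ 0)) * hc' - (i (v c 0)) * hc₀
    · rw [Finset.not_nonempty_iff_eq_empty] at hne
      rw [hne]
      exact Nat.zero_le _)
  refine ⟨x, fun h0 => hx ?_⟩
  have h1 := map_lp i v (Finset.univ.erase x)
  rw [← h1, coeff_map, h0, map_zero]

/-- two vectors are parallel -/
def Par (a b : Fin 2 → F) : Prop := a 0 * b 1 = a 1 * b 0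

theorem Par.trans {a b c : Fin 2 → F} (hb : b ≠ 0) (h1 : Par b a) (h2 : Par b c) : Par a c := by
  unfold Par at *
  have h : b 0 ≠ 0 ∨ b 1 ≠ 0 := by
    by_contra h
    push Not at h
    apply hb
    funext k
    fin_cases k
    · exact h.1
    · exact h.2
  rcases h with h | h
  · apply mul_left_cancel₀ h
    linear_combination (a 0) * h2 - (c 0) * h1
  · apply mul_left_cancel₀ h
    linear_combination (a 1) * h2 - (c 1) * h1

theorem Par.symm {a b : Fin 2 → F} (h : Par a b) : Par b a := by
  unfold Par at *
  linear_combination -h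

open Classical in
theorem exists_sub (p : ℕ) (hp : 2 ≤ p) {X : Type} [Fintype X] (v : X → Fin 2 → F)
    (hX : 2 * p - 1 ≤ (Finset.univ.filter (fun x => v x ≠ 0)).card)
    (hl : ∀ x, v x ≠ 0 → p - 1 ≤ (Finset.univ.filter (fun y => ¬ Par (v x) (v y))).card) :
    ∃ Y : Finset X, Y.card = 2 * p - 1 ∧ (∀ x ∈ Y, v x ≠ 0) ∧
      ∀ x ∈ Y, (Y.filter (fun y => Par (v x) (v y))).card ≤ p := by
  set S := Finset.univ.filter (fun x => v x ≠ 0) with hS
  by_cases h : ∃ x ∈ S, p < (S.filter (fun y => Par (v x) (v y))).card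
  · obtain ⟨x, hxS, hx⟩ := h
    have hx0 : v x ≠ 0 := (mem_filter.1 hxS).2
    obtain ⟨P, hPs, hPc⟩ := Finset.exists_subset_card_eq hx.le
    obtain ⟨Q, hQs, hQc⟩ := Finset.exists_subset_card_eq (hl x hx0)
    have hP : ∀ y ∈ P, v y ≠ 0 ∧ Par (v x) (v y) := by
      intro y hy
      have := mem_filter.1 (hPs hy)
      exact ⟨(mem_filter.1 this.1).2, this.2⟩
    have hQ : ∀ y ∈ Q, ¬ Par (v x) (v y) := fun y hy => (mem_filter.1 (hQs hy)).2
    have hQ0 : ∀ y ∈ Q, v y ≠ 0 := by
      intro y hy h0
      apply hQ y hy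
      unfold Par
      rw [h0]; simp
    have hdisj : Disjoint P Q := by
      rw [Finset.disjoint_left]
      intro y hyP hyQ
      exact hQ y hyQ (hP y hyP).2
    refine ⟨P ∪ Q, ?_, ?_, ?_⟩
    · rw [Finset.card_union_of_disjoint hdisj, hPc, hQc]
      omega
    · intro y hy
      rcases Finset.mem_union.1 hy with h1 | h1
      · exact (hP y h1).1
      · exact hQ0 y h1
    · intro z hz
      rcases Finset.mem_union.1 hz with h1 | h1
      · refine le_trans (Finset.card_le_card (t := P) ?_) hPc.le
        intro y hy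
        rw [mem_filter] at hy
        rcases Finset.mem_union.1 hy.1 with h2 | h2
        · exact h2
        · exfalso
          apply hQ y h2
          exact Par.trans (hP z h1).1 (hP z h1).2.symm hy.2
      · refine le_trans (Finset.card_le_card (t := Q) ?_) (by rw [hQc]; omega)
        intro y hy
        rw [mem_filter] at hy
        rcases Finset.mem_union.1 hy.1 with h2 | h2
        · exfalso
          apply hQ z h1
          exact Par.trans (hP y h2).1 (hP y h2).2.symm hy.2.symm
        · exact h2
  · push Not at h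
    obtain ⟨Y, hYs, hYc⟩ := Finset.exists_subset_card_eq hX
    refine ⟨Y, hYc, fun x hx => (mem_filter.1 (hYs hx)).2, fun x hx => ?_⟩
    exact (Finset.card_le_card (Finset.filter_subset_filter _ hYs)).trans (h x (hYs hx))

theorem lp_comp {κ X : Type} [Fintype κ] [DecidableEq X] (v : X → Fin 2 → F) (f : κ → X)
    (hf : Function.Injective f) : lp (fun c => v (f c)) Finset.univ = lp v (Finset.univ.image f) := by
  rw [lp, lp, Finset.prod_image fun a _ b _ h => hf h]

theorem fact_ne (p : ℕ) [hp : Fact p.Prime] [CharP F p] : ((p - 1).factorial : F) ≠ 0 := by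
  intro h
  rw [CharP.cast_eq_zero_iff F p, hp.out.dvd_factorial] at h
  have := hp.out.two_le
  omega

theorem coeff_zero1 {κ : Type} [Fintype κ] [DecidableEq κ] [DecidableEq F] (w : κ → Fin 2 → F) (m : ℕ)
    (h : (Finset.univ.filter (fun c => w c 1 ≠ 0)).card < m) : (lp w Finset.univ).coeff m = 0 := by
  rw [coeff_lp]
  refine Finset.sum_eq_zero fun t ht => ?_
  rw [mem_filter] at ht
  obtain ⟨c, hc1, hc2⟩ : ∃ c ∈ Finset.univ \ t, w c 1 = 0 := by
    by_contra hcon
    push Not at hcon
    have : (Finset.univ \ t).card ≤ (Finset.univ.filter (fun c => w c 1 ≠ 0)).card :=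
      Finset.card_le_card fun c hc => by
        rw [mem_filter]; exact ⟨mem_univ _, hcon c hc⟩
    omega
  rw [Finset.prod_eq_zero hc1 hc2, mul_zero]

theorem coeff_zero0 {κ : Type} [Fintype κ] [DecidableEq κ] [DecidableEq F] (w : κ → Fin 2 → F) (m : ℕ)
    (hc : Fintype.card κ = 2 * m)
    (h : (Finset.univ.filter (fun c => w c 0 ≠ 0)).card < m) : (lp w Finset.univ).coeff m = 0 := by
  rw [← coeff_swap w Finset.univ m (by rw [card_univ, hc])]
  apply coeff_zero1
  simpa using h

open Classical in
theorem crit (p : ℕ) [hp : Fact p.Prime] [CharP F p] {X : Type} [Fintype X]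
    (v : X → Fin 2 → F) (hX : 2 * p - 1 ≤ (Finset.univ.filter (fun x => v x ≠ 0)).card) :
    (∃ f : Fin (p - 1) × Fin 2 → X, Function.Injective f ∧
      Matrix.permanent (Matrix.of (fun (r c : Fin (p - 1) × Fin 2) => v (f c) r.2)) ≠ 0) ↔
    ∀ x, v x ≠ 0 → p - 1 ≤ (Finset.univ.filter (fun y => ¬ Par (v x) (v y))).card := by
  have hp2 : 2 ≤ p := hp.out.two_le
  constructor
  · rintro ⟨f, hf, hper⟩ x hx
    by_contra hlt
    push Not at hlt
    apply hper
    rw [perm_eq (p - 1) (fun c => v (f c))]
    refine mul_eq_zero_of_right _ ?_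
    have hN : (Finset.univ.filter (fun c => ¬ Par (v x) (v (f c)))).card < p - 1 := by
      refine lt_of_le_of_lt ?_ hlt
      refine Finset.card_le_card_of_injOn f ?_ hf.injOn
      intro c hc
      simp only [coe_filter, mem_univ, true_and, Set.mem_ofPred_eq] at hc ⊢
      exact hc
    by_cases h0 : v x 0 = 0
    · have h1 : v x 1 ≠ 0 := by
        intro h1
        apply hx
        funext k
        fin_cases k
        · exact h0
        · exact h1
      apply coeff_zero0 _ _ (by simp; ring)
      refine lt_of_le_of_lt (Finset.card_le_card ?_) hN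
      intro c hc
      simp only [mem_filter, mem_univ, true_and] at hc ⊢
      intro hpar
      unfold Par at hpar
      rw [h0, zero_mul] at hpar
      rcases mul_eq_zero.1 hpar.symm with h2 | h2
      · exact h1 h2
      · exact hc h2
    · rw [← coeff_transform p (fun c => v (f c)) Finset.univ (by simp; ring) (- v x 1 / v x 0)]
      apply coeff_zero1
      refine lt_of_le_of_lt (Finset.card_le_card ?_) hN
      intro c hc
      rw [mem_filter] at hc ⊢
      refine ⟨mem_univ _, ?_⟩
      intro hpar
      unfold Par at hpar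
      apply hc.2
      show v (f c) 1 + -v x 1 / v x 0 * v (f c) 0 = 0
      apply mul_left_cancel₀ h0
      have h3 : v x 0 * (- v x 1 / v x 0) = - v x 1 := mul_div_cancel₀ _ h0
      rw [mul_add, ← mul_assoc, h3, hpar]
      ring
  · intro hl
    obtain ⟨Y, hYc, hY0, hYp⟩ := exists_sub p hp2 v hX hl
    obtain ⟨x, hx⟩ := exists_good p (ι := Y) (fun y => v y) (fun y => hY0 y y.2)
      (by rw [Fintype.card_coe, hYc]) (by
        intro c₀
        refine le_trans (le_of_eq ?_) (hYp c₀ c₀.2)
        refine Finset.card_bij (fun y _ => (y : X)) ?_ ?_ ?_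
        · intro y hy
          rw [mem_filter] at hy ⊢
          exact ⟨y.2, hy.2⟩
        · intro a _ b _ h; exact Subtype.ext h
        · intro y hy
          rw [mem_filter] at hy
          exact ⟨⟨y, hy.1⟩, by rw [mem_filter]; exact ⟨mem_univ _, hy.2⟩, rfl⟩)
    let e : Fin (p - 1) × Fin 2 ≃ ↥(Finset.univ.erase x) := Fintype.equivOfCardEq (by
      rw [Fintype.card_coe, card_erase_of_mem (mem_univ x), card_univ, Fintype.card_coe, hYc]
      simp; omega)
    let f : Fin (p - 1) × Fin 2 → Y := fun k => (e k : Y)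
    have hf : Function.Injective f := Subtype.val_injective.comp e.injective
    have himg : Finset.univ.image f = Finset.univ.erase x := by
      ext y
      simp only [mem_image, mem_univ, true_and]
      constructor
      · rintro ⟨k, rfl⟩; exact (e k).2
      · intro hy
        refine ⟨e.symm ⟨y, hy⟩, ?_⟩
        show ((e (e.symm ⟨y, hy⟩) : ↥(Finset.univ.erase x)) : Y) = y
        rw [Equiv.apply_symm_apply]
    refine ⟨fun k => (f k : X), Subtype.val_injective.comp hf, ?_⟩
    rw [perm_eq (p - 1) (fun c => v (f c))]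
    refine mul_ne_zero (pow_ne_zero _ (fact_ne p)) ?_
    have h2 := lp_comp (fun y : Y => v y) f hf
    rw [h2, himg]
    exact hx

end Pool.Agent.W5h78.AT
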